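import Pool.Agent.N686.EL.Level
set_option autoImplicit false

/-!
Beilinson's conjecture for `K_2` of the hyperelliptic curves `z + 1/z = F(x)` of every genus `g` over
number fields: `g` unramified classes with linearly independent regulators at a complex place, from
the solutions `b` of `C_N(F(b)) = κ` (`C_N(z + 1/z) = z ^ N + 1/z ^ N`, `κ = ζ + 1/ζ` with a root of
unity `ζ`), for an *explicit* level `N`: the critical values `v` of `F` at the place must satisfy
`|v - 2| + |v + 2| > 4 cosh (log 2 / N)`. This holds for all large `N` if no critical value lies in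
`[-2, 2]`.
-/

namespace Pool.Agent.Results.MP_0a9c3b_nt.ExplicitLevel

open Polynomial

open Pool.Agent.TH826.MK (KQ symb Torus Unramified)

open Pool.Agent.TH826.HD (PRing POpen pent toP pcst pDel isDomain_PRing pDel_ne_zero liftP
  liftP_toP)

open Pool.Agent.Y775.CC (SmoothPts smoothPts)

open Pool.Agent.N686.EL

/-- At the complex place `s`, the sum of the distances of each critical value of `F` from the points
`2` and `-2` is greater than `ρ`, that is, the critical values lie outside of the ellipse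
`|v - 2| + |v + 2| ≤ ρ` with the foci `2` and `-2`. -/
def CritOutside {K : Type*} [Field K] (s : K →+* ℂ) (F : K[X]) (ρ : ℝ) : Prop :=
  ∀ x : ℂ, (derivative F).eval₂ s x = 0 → ρ < ‖F.eval₂ s x - 2‖ + ‖F.eval₂ s x + 2‖

/-- `κ` is of the form `ζ + 1/ζ` with a root of unity `ζ` of the algebraic closure. -/
def Cyclotomic {K : Type*} [Field K] (κ : K) : Prop :=
  ∃ (ζ : AlgebraicClosure K) (k : ℕ), k ≠ 0 ∧ ζ ^ k = 1 ∧
    algebraMap K (AlgebraicClosure K) κ = ζ + ζ⁻¹

/-- The symbols `{z, (x - b_m) / (x - b_l)}` are unramified at all discrete valuations of the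
function field `M` of the curve `z² - F(x) z + 1 = 0`. -/
def UnramifiedSymbols.{u, w} {K : Type u} [Field K] {r : ℕ} (F : K[X]) (b : Fin r → K) : Prop :=
  ∀ (M : Type w) [Field M] [Algebra (PRing F) M] [IsFractionRing (PRing F) M],
    ∃ f : POpen F b →+* M, (∀ a : PRing F, f (toP F b a) = algebraMap (PRing F) M a) ∧
      ∀ m l, KQ.map 2 f (symb (pent F b m l)) ∈ Unramified M 2

/-- There are `g` loops in the complex points over `s` of the open part `∏ (x - b_m) ≠ 0` of the
curve `z² - F(x) z + 1 = 0`, such that the determinant of the regulators on the loops of the `g`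
symbols `{z, (x - b_k) / (x - b_0)}`, `1 ≤ k ≤ g`, does not vanish. -/
def IndependentRegulators {K : Type*} [Field K] (s : K →+* ℂ) {g : ℕ} (F : K[X])
    (b : Fin (g + 1) → K) : Prop :=
  ∃ Γ : Fin g → Torus (POpen F b) 1,
    (∀ l θ (y : K), (Γ l).e θ (pcst F b y) = s y) ∧
    (Matrix.of fun l k : Fin g => (Γ l).reg (symb (pent F b k.succ 0))).det ≠ 0

theorem Cyclotomic.exists_root {K : Type*} [Field K] {κ : K} (h : Cyclotomic κ) (s : K →+* ℂ) :
    ∃ (ζ : ℂ) (k : ℕ), k ≠ 0 ∧ ζ ^ k = 1 ∧ s κ = ζ + ζ⁻¹ := by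
  obtain ⟨ζ, k, hk, h1, h2⟩ := h
  let _ := s.toAlgebra
  set f : AlgebraicClosure K →ₐ[K] ℂ := IsAlgClosed.lift with hf
  refine ⟨f ζ, k, hk, by rw [← map_pow, h1, map_one], ?_⟩
  have h3 : f (algebraMap K (AlgebraicClosure K) κ) = s κ := f.commutes κ
  rw [← h3, h2, map_add, map_inv₀]

/-- Solutions of `C_N(y) = κ` are of the form `ζ + 1/ζ`. -/
theorem special_of_eval {K : Type*} [Field K] (s : K →+* ℂ) {N : ℕ} (hN : 0 < N) {κ y : K}
    (hκ : ∃ (ζ : ℂ) (k : ℕ), k ≠ 0 ∧ ζ ^ k = 1 ∧ s κ = ζ + ζ⁻¹)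
    (hy : (Chebyshev.C K N).eval y = κ) :
    ∃ (ζ : ℂ) (k : ℕ), k ≠ 0 ∧ ζ ^ k = 1 ∧ s y = ζ + ζ⁻¹ := by
  obtain ⟨ζ, k, hk, h1, h2⟩ := hκ
  have hζ0 : ζ ≠ 0 := by
    rintro rfl
    rw [zero_pow hk] at h1
    exact zero_ne_one h1
  -- `s y = η + 1/η`
  obtain ⟨η, hη⟩ : ∃ η : ℂ, η ^ 2 - s y * η + 1 = 0 := by
    obtain ⟨d, hd⟩ := IsAlgClosed.exists_pow_nat_eq ((s y) ^ 2 - 4) two_pos
    exact ⟨(s y + d) / 2, by linear_combination hd / 4⟩
  have hη0 : η ≠ 0 := by
    rintro rfl
    norm_num at hη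
  have hsy : s y = η + η⁻¹ := by
    field_simp
    linear_combination -hη
  have h3 : η ^ N + (η⁻¹) ^ N = ζ + ζ⁻¹ := by
    rw [← Pool.Agent.N686.PF.eval_cheb ℂ η η⁻¹ (mul_inv_cancel₀ hη0), ← hsy, ← h2, ← hy,
      ← Chebyshev.map_C s, eval_map, eval₂_hom]
  have h4 : (η ^ N - ζ) * (η ^ N - ζ⁻¹) = 0 := by
    have h5 : η ^ N * (η⁻¹) ^ N = 1 := by rw [← mul_pow, mul_inv_cancel₀ hη0, one_pow]
    have h6 : ζ * ζ⁻¹ = 1 := mul_inv_cancel₀ hζ0
    linear_combination η ^ N * h3 - h5 + h6
  refine ⟨η, N * k, mul_ne_zero hN.ne' hk, ?_, hsy⟩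
  rw [pow_mul]
  rcases mul_eq_zero.1 h4 with h5 | h5
  · rw [sub_eq_zero.1 h5, h1]
  · rw [sub_eq_zero.1 h5, inv_pow, h1, inv_one]

/-- Let `K` be a number field, `F` a polynomial of degree `g + 1` whose coefficients are algebraic
integers of `K`, and `C` the plane curve `z + 1/z = F(x)` over `K`, that is, `z² - F(x) z + 1 = 0`.
Let `N ≥ 1` be an integer and `κ = ζ + 1/ζ` an element of `K`, with a root of unity `ζ`, such that the
polynomial `C_N(F(x)) - κ` of degree `N (g + 1)` splits over `K` (`C_N(z + 1/z) = z ^ N + 1/z ^ N`).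
We call its roots the points of level `N`. Then:

(1) the coordinate ring of `C` is a domain, the points of level `N` are algebraic integers if `F` is
monic, and for all points `b_m` of level `N` which are algebraic integers the symbols
`{z, (x - b_m) / (x - b_l)}` are unramified at all discrete valuations of the function field of `C`;

(2) at each embedding `s` of `K` into `ℂ` such that `|v - 2| + |v + 2| > 4 cosh (log 2 / N)` for all
critical values `v` of `F` at `s`, the curve `C` (of genus `g`) is smooth at its complex points over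
`s`, and there are `g + 1` points `b_0, ..., b_g` of level `N` in `K` and `g` loops in the complex
points of `C` over `s`, such that the determinant of the regulators of the `g` symbols
`{z, (x - b_k) / (x - b_0)}` on the `g` loops does not vanish;

(3) if no critical value of `F` at `s` lies in `[-2, 2]`, that is, `|v - 2| + |v + 2| > 4` for all
critical values, then the condition in (2) holds for all sufficiently large integers. -/
theorem result.{u, v} (g : ℕ) (K : Type u) [Field K] [NumberField K] (F : K[X])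
    (hF : ∀ i, IsIntegral ℤ (F.coeff i)) (hdeg : F.natDegree = g + 1) :
    (∀ (N : ℕ) (κ : K), 0 < N → Cyclotomic κ → ((Chebyshev.C K N).comp F - C κ).Splits →
      IsDomain (PRing F) ∧
      (F.Monic → ∀ b : K, (Chebyshev.C K N).eval (F.eval b) = κ → IsIntegral ℤ b) ∧
      (∀ (r : ℕ) (b : Fin r → K), (∀ m, IsIntegral ℤ (b m)) →
        (∀ m, (Chebyshev.C K N).eval (F.eval (b m)) = κ) → UnramifiedSymbols.{u, v} F b) ∧
      ∀ s : K →+* ℂ, CritOutside s F (4 * Real.cosh (Real.log 2 / N)) →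
        SmoothPts s F ∧ ∃ b : Fin (g + 1) → K,
          (∀ m, (Chebyshev.C K N).eval (F.eval (b m)) = κ) ∧ IndependentRegulators s F b) ∧
    ∀ s : K →+* ℂ, CritOutside s F 4 → ∃ N₀ : ℕ, ∀ N : ℕ, N₀ ≤ N →
      CritOutside s F (4 * Real.cosh (Real.log 2 / N)) := by
  have hdegF : 0 < F.natDegree := by omega
  refine ⟨fun N κ hN hκ hsplit => ⟨isDomain_PRing hdegF, fun hm b hb => ?_, ?_, fun s hs =>
    ⟨?_, ?_⟩⟩, fun s hs => exists_level hdegF hs⟩
  · obtain ⟨s⟩ : Nonempty (K →+* ℂ) := inferInstance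
    obtain ⟨ξ, k, hk, h1, h2⟩ := special_of_eval s hN (hκ.exists_root s) hb
    exact Pool.Agent.N686.PF.isIntegral_special s hm hdegF hF hk h1 h2
  · intro r b hint hb M _ _ _
    obtain ⟨s⟩ : Nonempty (K →+* ℂ) := inferInstance
    have hinj : Function.Injective (algebraMap (PRing F) M) := IsFractionRing.injective _ _
    have hne : algebraMap (PRing F) M (pDel F b) ≠ 0 := by
      rw [Ne, map_eq_zero_iff _ hinj]
      exact pDel_ne_zero b
    exact ⟨liftP (algebraMap (PRing F) M) hne, fun a => liftP_toP _ _ _,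
      fun m l => Pool.Agent.TH826.UH.symb_mem_unramified _ s hF hint m l fun m =>
        special_of_eval s hN (hκ.exists_root s) (hb m)⟩
  · refine smoothPts fun x hx t ht hv => ?_
    have h1 := hs x hx
    rw [hv, dist_real ht] at h1
    have h2 := Real.one_le_cosh (Real.log 2 / N)
    linarith
  · refine crit_cosh hdeg hN hs ?_ hsplit
    obtain ⟨ζ, k, hk, h1, h2⟩ := hκ.exists_root s
    refine ⟨ζ, ?_, h2⟩
    have h3 := congrArg norm h1
    rw [norm_pow, norm_one] at h3
    exact (pow_eq_one_iff_of_nonneg (norm_nonneg _) hk).1 h3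

end Pool.Agent.Results.MP_0a9c3b_nt.ExplicitLevel
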