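import Pool.Agent.N76.EC.LG2
import Pool.Agent.N76.EC.Hyp

set_option autoImplicit false

/-!
Beilinson's conjecture on `K_2` of curves over number fields: *linear growth of the rank of unramified `K_2`* over the
fields of special points, for every smooth curve `z + 1/z = F(x)` over a number field.

Let `C` be the curve `z + 1/z = F(x)` of genus `g ≥ 1` over a number field `K`, with an arbitrary monic polynomial `F` of
degree `g + 1` with integral coefficients such that `F² - 4` has no multiple root (that is, `C` is smooth), and let `p`
be any prime number. There is a constant `c` such that for all `k ≥ c` and all number fields `L` over `K` which contain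
the special points `b` of level `p^k` (`F(b) = η + 1/η`, `η^(p^k) = 1`), the symbols `{z, (x - b) / (x - b')}` of the
special points of level `p^k` contain `p^(k - c)` linearly independent ones in `K_2 ⊗ ℚ` of the function field over `L`.
All of them are unramified. So the dimension of the unramified part of `K_2 ⊗ ℚ` of the curve over the field of the
special points of level `p^k` is at least `p^(k - c)` (the number of the special points of level `p^k` is at most
`(g + 1) p^k`).

The proof. The regulators of the symbols over the embeddings of `L` above one embedding of `K` are vectors of real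
numbers. Their differences span a rational vector space on which the Galois group acts. If its dimension was smaller than
`φ(p^(e+1))`, then a power of an automorphism `η ↦ η^(1 + p^2)` would act trivially on it and nontrivially on the roots
of unity of a suitable order, and the regulators of the symbols of many pairs of special points, which are close to each
other but do not lie in one fibre, would coincide; this contradicts the behaviour of the regulator near the unit circle.
The linear independence in `K_2` of the function field follows because the regulators are also obtained on loops of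
points with transcendental coordinates.
-/

namespace Pool.Agent.Results.MP_0a9c3b_nt.LinearGrowth

open Polynomial

open Pool.Agent.TH826.MK (KQ symb Unramified)

open Pool.Agent.TH826.HD (PRing POpen pent toP isDomain_PRing)

open Pool.Agent.Y775.CC (SmoothPts)

open Pool.Agent.N76.EC (exists_sys)

/-- In the function field `M` of the curve `z² - F(x) z + 1 = 0` the symbols `{z, (x - b_k) / (x - b_l)}` are unramified
at all discrete valuations, and the `r` symbols `{z, (x - b_i) / (x - b_0)}`, `1 ≤ i ≤ r`, are linearly independent over
`ℚ` in `K_2(M) ⊗ ℚ`. -/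
def IndependentUnramified.{u, w} {L : Type u} [Field L] {r : ℕ} (F : L[X]) (b : Fin (r + 1) → L) : Prop :=
  ∀ (M : Type w) [Field M] [Algebra (PRing F) M] [IsFractionRing (PRing F) M],
    ∃ f : POpen F b →+* M, (∀ a : PRing F, f (toP F b a) = algebraMap (PRing F) M a) ∧
      (∀ k l, KQ.map 2 f (symb (pent F b k l)) ∈ Unramified M 2) ∧
      LinearIndependent ℚ fun i : Fin r => KQ.map 2 f (symb (pent F b i.succ 0))

/-- Let `K` be a number field and `F` *any* monic polynomial of degree `g + 1 ≥ 2` whose coefficients are algebraic
integers of `K` such that `F² - 4` is squarefree, so that the curve `C : z + 1/z = F(x)` is smooth, and let `p` be any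
prime number. There is a constant `c` with the following properties. Let `k ≥ c`, and let `L` be a number field over `K`
which contains all roots `b` of the polynomial `C_N(F(x)) - 2`, `N = p^k`, that is, all `b` with `F(b) = η + 1/η`,
`η ^ N = 1` (every number field over `K` has a finite extension with this property). The coordinate ring `PRing F` of `C`
over `L` is a domain, the complex points of `C` over all embeddings of `L` are smooth, and there are roots
`b_0, ..., b_r` of this polynomial, `r = p^(k - c)`, with `F(b_i) ≠ ± 2`, such that the `r` symbols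
`{z, (x - b_i) / (x - b_0)}`, `1 ≤ i ≤ r`, are unramified at all discrete valuations of the function field `M` of `C` and
linearly independent over `ℚ` in `K_2(M) ⊗ ℚ`. In particular the dimension of the unramified part of `K_2(M) ⊗ ℚ` is at
least `p^(k - c)`. -/
theorem result.{u, v, w} (g : ℕ) (hg : 1 ≤ g) (K : Type u) [Field K] [NumberField K] (F : K[X])
    (hF1 : F.Monic) (hdeg : F.natDegree = g + 1) (hF : ∀ i, IsIntegral ℤ (F.coeff i))
    (hsq : Squarefree (F ^ 2 - 4)) (p : ℕ) (hp : p.Prime) :
    ∃ c : ℕ, ∀ k : ℕ, c ≤ k → ∀ (L : Type v) [Field L] [NumberField L] [Algebra K L],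
      ((Chebyshev.C L (p ^ k : ℕ)).comp (F.map (algebraMap K L)) - C 2).Splits →
      IsDomain (PRing (F.map (algebraMap K L))) ∧
      (∀ s : L →+* ℂ, SmoothPts s (F.map (algebraMap K L))) ∧
      (∃ b : Fin (p ^ (k - c) + 1) → L,
        (∀ i, (Chebyshev.C L (p ^ k : ℕ)).eval ((F.map (algebraMap K L)).eval (b i)) = 2 ∧
          ((F.map (algebraMap K L)).eval (b i)) ^ 2 ≠ 4) ∧
        IndependentUnramified.{v, w} (F.map (algebraMap K L)) b) ∧
      ∀ (M : Type w) [Field M] [Algebra (PRing (F.map (algebraMap K L))) M]
        [IsFractionRing (PRing (F.map (algebraMap K L))) M],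
        ((p ^ (k - c) : ℕ) : Cardinal) ≤ Module.rank ℚ (Unramified M 2) := by
  obtain ⟨s₀⟩ : Nonempty (K →+* ℂ) := inferInstance
  obtain ⟨η, φ₀, ε, B, X, S⟩ := exists_sys (hF1.map s₀) (Nat.succ_pos g) (by rw [hF1.natDegree_map, hdeg])
    (Pool.Agent.N76.EC.not_crit' hsq s₀ (by norm_num)) (Pool.Agent.N76.EC.not_crit' hsq s₀ (by norm_num))
  obtain ⟨c, hc⟩ := S.linear_growth_all (Nat.succ_le_succ hg) hp
  refine ⟨c, fun k hk L _ _ _ hsplit => ?_⟩
  obtain ⟨b, hb, hM⟩ := hc k hk L hsplit
  obtain ⟨s⟩ : Nonempty (L →+* ℂ) := inferInstance
  have hmL : (F.map (algebraMap K L)).Monic := hF1.map _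
  have hdL : 0 < (F.map (algebraMap K L)).natDegree := by
    rw [hF1.natDegree_map, hdeg]
    exact Nat.succ_pos g
  have hFL : ∀ i, IsIntegral ℤ ((F.map (algebraMap K L)).coeff i) := fun i => by
    rw [coeff_map]
    exact (hF i).map ((algebraMap K L).toIntAlgHom)
  have hN0 : 0 < p ^ k := pow_pos hp.pos k
  have hmain : IndependentUnramified.{v, w} (F.map (algebraMap K L)) b := by
    intro M _ _ _
    obtain ⟨f, hf, hun⟩ := Pool.Agent.N76.EC.exists_lift_unramified hmL hdL hFL s hN0 (fun i => (hb i).1) M
    exact ⟨f, hf, hun, hM M f hf⟩
  refine ⟨isDomain_PRing hdL, fun s => Pool.Agent.N76.EC.smooth_of_squarefree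
    (Pool.Agent.N76.EC.squarefree_map hsq) s, ⟨b, fun i => hb i, hmain⟩, fun M _ _ _ => ?_⟩
  obtain ⟨f, -, hun, hind⟩ := hmain M
  have h1 : LinearIndependent ℚ fun i : Fin (p ^ (k - c)) =>
      (⟨_, hun i.succ 0⟩ : Unramified M 2) :=
    LinearIndependent.of_comp (Unramified M 2).subtype hind
  have h2 := h1.cardinal_lift_le_rank
  rw [Cardinal.mk_fin, Cardinal.lift_natCast, Cardinal.lift_uzero] at h2
  exact_mod_cast h2

end Pool.Agent.Results.MP_0a9c3b_nt.LinearGrowth
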