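import Pool.Agent.N19.BR.WMain

/-!
# Beilinson's conjecture for `K_2` of curves (and for motives) over number fields: an unconditional relation
between the conjecture over `K` (for example `K = ℚ`) and the conjecture over special number fields

`K` is a number field, `L` a finite Galois extension of `K` and `S` a finite set of primes of `K`.

The proof.  There is a relation `∑ e_j [F_j] = [K]`, with coefficient `1` on the right, between the
permutation characters of finite extensions `F_j` of `K` with the properties below
(`Pool.Agent.N19.BR.Rel`, ..., `Main`, `AMain`).  It gives: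
* `L(M, s) = R(s) ∏ L(M_{F_j}, s) ^ e_j` with `R` from finitely many Euler factors with rational coefficients, so
  `R(m)` is a nonzero rational number for an integer `m` (`Lead`, `MLead`); so the orders and the leading
  coefficients at `m` are related;
* `dim V^{G_K} = ∑ e_j dim V^{G_{F_j}}` for every representation `V` of the absolute Galois group of `K`
  (`InvRel`, `Inv`), and `R_K = q ∏ R_{F_j} ^ e_j`, `q ∈ ℚ^×`, for the determinants of an invariant pairing
  `β : V × W → ℝ` (`Det`, `Reg`, `Reg2`, `Reg3`).  For this let `G` be the Galois group of a Galois extension that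
  contains the `F_j`.  The pairing is an endomorphism `T` of `V ⊗ ℝ` that commutes with `G`, followed by a
  rational isomorphism of `V` and the dual of `W`, and `det(T | V^G) = ∏ det(T | V^{H_j}) ^ e_j`, since the
  logarithmic derivatives of `det(1 + x (T - 1) | V^H)` are traces of endomorphisms that commute with `G`.

The definitions are in `Pool.Agent.N19.BR.WDefs`, `ADefs`, `TDefs`, `BBDefs` and `Defs`.
-/

set_option autoImplicit false

namespace Pool.Agent.Results.MP_0a9c3b_nt.RegulatorDescent

open NumberField IsDedekindDomain
open Pool.Agent.N19.BR.TDef (FieldList)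
open Pool.Agent.N19.BR.MDef (HyperelementaryList Pure Region)
open Pool.Agent.N19.BR.WDef

/-- **Regulators and leading coefficients.**  Let `L/K` be a finite Galois extension of number fields, `S` a
finite set of primes of `K` and `k ≥ 1`.  There is a finite list of number fields `F_j ⊇ K` with integers
`e_j`, such that for every `j` there is a prime number `p` for which the Galois group of `L F_j / F_j` is
`p`-hyperelementary, the divisors of `k` prime to `p` divide the local degrees of `F_j / K` at the primes above
`S`, and `F_j` has at most two real places if `p ≠ 2`, and such that the following holds for all `i`, all families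
`α` of Frobenius eigenvalues pure of weight `i` (those of `H^1(C)` for a curve `C` over `K`, or of any motive),
all rational representations `V`, `W` of the absolute Galois group of `K` with an invariant pairing
`β : V × W → ℝ` (the regulator pairing), all connected `U` that contain the half-plane of absolute convergence,
all integers `m` in `U` and all `δ_j`, `κ_j`: if over all `F_j` the pairing between `V^{G_{F_j}}` and
`W^{G_{F_j}}` is perfect, of rank `r_j` and determinant `R_j`, and `L(M_{F_j}, s)` continues to `U` with order
`r_j + δ_j` and leading coefficient `κ_j R_j` at `m`, then over `K` the same is true with `δ = ∑ e_j δ_j` and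
`κ = q ∏ κ_j ^ e_j` for a nonzero rational number `q`.  In particular Beilinson's conjecture for `C` over all
`F_j` (`m = 0`, `δ_j = 0`, `κ_j` rational) implies the conjecture over `K`. -/
theorem result (K : Type) [Field K] [NumberField K] (L : Type) [Field L] [NumberField L]
    [Algebra K L] [IsGalois K L] (S : Set (HeightOneSpectrum (𝓞 K))) (hS : S.Finite) (k : ℕ)
    (hk : k ≠ 0) :
    ∃ Y : FieldList K, HyperelementaryList L S k Y ∧
      ∀ (i : ℤ) (N : ℕ) (α : HeightOneSpectrum (𝓞 K) → Fin N → ℂ), Pure i α →
      ∀ (V W : Type) [AddCommGroup V] [Module ℚ V] [AddCommGroup W] [Module ℚ W]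
        (ρ : Representation ℚ Gal(AlgebraicClosure K/K) V)
        (τ : Representation ℚ Gal(AlgebraicClosure K/K) W) (β : V →ₗ[ℚ] W →ₗ[ℚ] ℝ),
      InvariantPairing ρ τ β →
      ∀ U : Set ℂ, Region i U → ∀ m : ℤ, (m : ℂ) ∈ U →
      ∀ (δ : Fin Y.r → ℤ) (κ : Fin Y.r → ℝ),
        (∀ j, RegulatorFormula ρ τ β α U m (Y.F j) (δ j) (κ j)) →
          RegulatorFormulaOverBase ρ τ β α U m (∑ j, Y.e j * δ j) (∏ j, κ j ^ Y.e j) := by
  obtain ⟨Y, hY, hrel⟩ := Pool.Agent.N19.BR.hyper_list K L S hS k hk
  exact ⟨Y, hY, fun i N α hα V W _ _ _ _ ρ τ β hβ U hU m hm δ κ hκ =>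
    Pool.Agent.N19.BR.regulator_of_rel hrel hα hβ hU hm hκ⟩

end Pool.Agent.Results.MP_0a9c3b_nt.RegulatorDescent
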